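import Pool.Agent.Y774.ST.Stm

/-! Project ST (helper774), job ST-W (helper254): without a return to `0` the walk diverges. -/

set_option autoImplicit false

namespace Pool.Agent.Y254.ST

open MeasureTheory ProbabilityTheory Filter Topology
open Pool.Agent.Results.MP_1da119_pr.StairsDivergence
open Pool.Agent.H528R3.Stairs (A B T s T_eq T_mono T_const s_pos)
open Pool.Agent.Y774.ST

noncomputable section

def ph (N k : ℕ) : ℝ := if k < N then (1/18:ℝ)^k else 0

def VV (N m : ℕ) : ℝ := ∑ k ∈ Finset.range m, s k * ph N k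

theorem ph_nonneg (N k : ℕ) : 0 ≤ ph N k := by
  unfold ph; split_ifs <;> positivity

theorem VV_succ (N m : ℕ) : VV N (m+1) = VV N m + s m * ph N m := by
  unfold VV; rw [Finset.sum_range_succ]

theorem VV_nonneg (N m : ℕ) : 0 ≤ VV N m :=
  Finset.sum_nonneg fun k _ => mul_nonneg (s_pos k).le (ph_nonneg N k)

theorem VV_mono (N : ℕ) : Monotone (VV N) :=
  monotone_nat_of_le_succ fun m => by
    rw [VV_succ]; linarith [mul_nonneg (s_pos m).le (ph_nonneg N m)]

theorem VV_const (N j : ℕ) : VV N (N+j) = VV N N := by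
  induction j with
  | zero => rfl
  | succ j ih =>
    rw [← add_assoc, VV_succ, ih]
    have : ph N (N+j) = 0 := by unfold ph; rw [if_neg (by omega)]
    rw [this, mul_zero, add_zero]

theorem VV_le (N m : ℕ) : VV N m ≤ VV N N := by
  rcases le_total m N with h | h
  · exact VV_mono N h
  · obtain ⟨j, rfl⟩ := Nat.exists_eq_add_of_le h
    exact (VV_const N j).le

theorem AB (n : ℕ) : ∃ J : ℝ, 1 ≤ J ∧ A (n+1) * s (n+1) = J ∧ B (n+1) * s n = J := by
  rcases Nat.even_or_odd n with hn | hn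
  · obtain ⟨i, rfl⟩ := hn
    have hodd : ¬ Even (i + i + 1) := by
      rw [Nat.not_even_iff_odd]; exact ⟨i, by ring⟩
    have hev : Even (i + i) := ⟨i, rfl⟩
    have hdiv : (i + i + 1)/2 = i := by omega
    have hdiv' : (i + i)/2 = i := by omega
    refine ⟨((i:ℝ)+1)^2, ?_, ?_, ?_⟩
    · nlinarith [(Nat.cast_nonneg i : (0:ℝ) ≤ i)]
    · unfold A s
      rw [if_neg hodd, if_neg hodd, hdiv]
      push_cast
      have : ((i:ℝ)+1)^2 + ((i:ℝ)+2)^2 ≠ 0 := by positivity
      field_simp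
    · unfold B s
      rw [if_neg (by omega), if_neg hodd, if_pos hev, hdiv']
      push_cast
      ring
  · obtain ⟨i, rfl⟩ := hn
    have hodd : ¬ Even (2*i+1) := by
      rw [Nat.not_even_iff_odd]; exact ⟨i, by ring⟩
    have hev : Even (2*i+1+1) := ⟨i+1, by ring⟩
    have hdiv : (2*i+1+1)/2 = i+1 := by omega
    have hdiv' : (2*i+1)/2 = i := by omega
    refine ⟨((i:ℝ)+2)^2, ?_, ?_, ?_⟩
    · nlinarith [(Nat.cast_nonneg i : (0:ℝ) ≤ i)]
    · unfold A s
      rw [if_pos hev, if_pos hev, hdiv]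
      push_cast
      ring
    · unfold B s
      rw [if_neg (by omega), if_pos hev, if_neg hodd, hdiv, hdiv']
      push_cast
      have : ((i:ℝ)+1+1)^2 + ((i:ℝ)+1)^2 ≠ 0 := by positivity
      field_simp
      ring

theorem drift {b : ℝ} (hb0 : 0 ≤ b) (hb : b ≤ 4/9) (N m : ℕ) (hm : 1 ≤ m) :
    T b (VV N) m ≤ VV N m - (if m ≤ N then (1/18:ℝ)^N/324 else 0) := by
  obtain ⟨n, rfl⟩ : ∃ n, m = n + 1 := ⟨m-1, by omega⟩
  obtain ⟨J, hJ, hA, hB⟩ := AB n
  have e : T b (VV N) (n+1) = VV N (n+1) + J * ((1/2+b) * ph N (n+1) - (1/2-b) * ph N n) := by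
    rw [T_eq, Nat.add_sub_cancel, VV_succ N (n+1)]
    have h1 : VV N n - VV N (n+1) = - (s n * ph N n) := by rw [VV_succ]; ring
    rw [h1]
    calc _ = VV N (n+1) + ((1/2+b) * (A (n+1) * s (n+1)) * ph N (n+1)
          - (1/2-b) * (B (n+1) * s n) * ph N n) := by ring
      _ = _ := by rw [hA, hB]; ring
  rw [e]
  by_cases h : n + 1 ≤ N
  · rw [if_pos h]
    have h1 : ph N n = (1/18:ℝ)^n := by unfold ph; rw [if_pos (by omega)]
    have h2 : ph N (n+1) ≤ (1/18:ℝ)^n * (1/18) := by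
      unfold ph
      split_ifs
      · rw [pow_succ]
      · positivity
    have hr : (0:ℝ) < (1/18:ℝ)^n := by positivity
    have hrN : (1/18:ℝ)^N ≤ (1/18:ℝ)^n :=
      pow_le_pow_of_le_one (by norm_num) (by norm_num) (by omega)
    have h3 : (1/2+b) * ph N (n+1) ≤ (17/18) * ((1/18:ℝ)^n * (1/18)) :=
      mul_le_mul (by linarith) h2 (ph_nonneg _ _) (by norm_num)
    have h4 : (1/18) * (1/18:ℝ)^n ≤ (1/2-b) * ph N n := by
      rw [h1]; exact mul_le_mul_of_nonneg_right (by linarith) hr.le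
    have h5 : (1/2+b) * ph N (n+1) - (1/2-b) * ph N n ≤ -((1/18:ℝ)^n/324) := by linarith
    have h6 : J * ((1/2+b) * ph N (n+1) - (1/2-b) * ph N n) ≤
        1 * ((1/2+b) * ph N (n+1) - (1/2-b) * ph N n) :=
      mul_le_mul_of_nonpos_right hJ (by linarith [div_nonneg hr.le (by norm_num : (0:ℝ) ≤ 324)])
    linarith
  · rw [if_neg h]
    have h1 : ph N n = 0 := by unfold ph; rw [if_neg (by omega)]
    have h2 : ph N (n+1) = 0 := by unfold ph; rw [if_neg (by omega)]
    rw [h1, h2]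
    linarith

theorem key (a : ℕ → ℝ) (ha : ∀ t, 1 ≤ t → 8 ≤ a t) (T₀ : ℕ) (h9 : ∀ t, T₀ ≤ t → 9 ≤ a t)
    (N : ℕ) : ∀ᵐ ω ∂noise, ∀ᶠ n in atTop,
      ω ∉ Kp a Set.univ T₀ 0 n ∩ {ω | idx (walk a ω (T₀+n)) ≤ N} := by
  have hind : ∀ (U : Set (ℕ → ℝ × ℝ)) ω, |U.indicator (fun _ => (1:ℝ)) ω| ≤ 1 := by
    intro U ω
    by_cases h : ω ∈ U
    · rw [Set.indicator_of_mem h]; simp
    · rw [Set.indicator_of_notMem h]; simp
  have hmi : ∀ {U : Set (ℕ → ℝ × ℝ)}, MeasurableSet U →
      Measurable (U.indicator (fun _ => (1:ℝ))) := fun hU => measurable_const.indicator hU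
  have habs : ∀ m, |VV N m| ≤ VV N N := fun m => by
    rw [abs_of_nonneg (VV_nonneg N m)]; exact VV_le N m
  obtain ⟨c, hc⟩ : ∃ c : ℝ, c = (1/18:ℝ)^N/324 := ⟨_, rfl⟩
  have hc0 : 0 < c := by rw [hc]; positivity
  let E : ℕ → Set (ℕ → ℝ × ℝ) := fun n =>
    Kp a Set.univ T₀ 0 n ∩ {ω | idx (walk a ω (T₀+n)) ≤ N}
  have hK : ∀ n, MeasurableSet (Kp a Set.univ T₀ 0 n) := fun n =>
    Kp_measurable a MeasurableSet.univ T₀ 0 n
  have hE : ∀ n, MeasurableSet (E n) := fun n =>
    (hK n).inter ((idx_measurable a (T₀+n)) (measurableSet_Iic (a := N)))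
  let J : ℕ → ℝ := fun n => ∫ ω, (Kp a Set.univ T₀ 0 n).indicator (fun _ => (1:ℝ)) ω
    * VV N (idx (walk a ω (T₀+n))) ∂noise
  have hJ0 : ∀ n, 0 ≤ J n := fun n => integral_nonneg fun ω =>
    mul_nonneg (Set.indicator_nonneg (fun _ _ => by norm_num) _) (VV_nonneg _ _)
  have hstep : ∀ n, J (n+1) + c * noise.real (E n) ≤ J n := by
    intro n
    have hb := bias_mem (ha (T₀+n+1) (by omega))
    have hb9 : 4/a (T₀+n+1) ≤ 4/9 :=
      div_le_div_of_nonneg_left (by norm_num) (by norm_num) (h9 _ (by omega))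
    have e1 : J (n+1) ≤ _ := killed_step a ha MeasurableSet.univ T₀ 0 (fun _ _ _ => by simp)
      (VV N) (VV N N) (VV_nonneg N) (VV_le N) n
    have i1 := integrable_past a (T₀+n) _ (hmi (hK n)) 1 (hind _) (VV N) (VV N N) habs
    have i2 := integrable_past a 0 _ (hmi (hE n)) 1 (hind _) (fun _ => c) c
      (fun _ => by rw [abs_of_pos hc0])
    have i3 := integrable_past a (T₀+n) _ (hmi (hK n)) 1 (hind _)
      (T (4/a (T₀+n+1)) (VV N)) (VV N N) (fun m => by
        have := T_nonneg_bound hb.1 hb.2 (VV_nonneg N) (VV_le N) m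
        rw [abs_of_nonneg this.1]; exact this.2)
    have e2 : ∫ ω, (Kp a Set.univ T₀ 0 n).indicator (fun _ => (1:ℝ)) ω
          * T (4/a (T₀+n+1)) (VV N) (idx (walk a ω (T₀+n))) ∂noise
        ≤ ∫ ω, ((Kp a Set.univ T₀ 0 n).indicator (fun _ => (1:ℝ)) ω
            * VV N (idx (walk a ω (T₀+n)))
          - (E n).indicator (fun _ => (1:ℝ)) ω * c) ∂noise := by
      refine integral_mono i3 (i1.sub i2) ?_
      intro ω
      show (Kp a Set.univ T₀ 0 n).indicator (fun _ => (1:ℝ)) ω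
          * T (4/a (T₀+n+1)) (VV N) (idx (walk a ω (T₀+n))) ≤
        (Kp a Set.univ T₀ 0 n).indicator (fun _ => (1:ℝ)) ω * VV N (idx (walk a ω (T₀+n)))
          - (E n).indicator (fun _ => (1:ℝ)) ω * c
      by_cases h1 : ω ∈ Kp a Set.univ T₀ 0 n
      · have hpos : 1 ≤ idx (walk a ω (T₀+n)) := h1.2 n le_rfl
        have hd := drift hb.1 hb9 N _ hpos
        rw [ind1 h1, one_mul, one_mul]
        by_cases h2 : idx (walk a ω (T₀+n)) ≤ N
        · rw [if_pos h2, ← hc] at hd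
          rw [ind1 (U := E n) ⟨h1, h2⟩, one_mul]
          exact hd
        · rw [if_neg h2] at hd
          rw [ind0 (U := E n) (fun h => h2 h.2), zero_mul]
          exact hd
      · rw [ind0 h1, ind0 (U := E n) (fun h => h1 h.1)]
        simp
    rw [integral_sub i1 i2, integral_mul_const,
      show ∫ ω, (E n).indicator (fun _ => (1:ℝ)) ω ∂noise = noise.real (E n) from
        integral_indicator_one (hE n)] at e2
    have e3 : J n = ∫ ω, (Kp a Set.univ T₀ 0 n).indicator (fun _ => (1:ℝ)) ω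
            * VV N (idx (walk a ω (T₀+n))) ∂noise := rfl
    rw [← e3] at e2
    have e4 := e1.trans e2
    linarith
  have hsumle : ∀ n, J n + c * ∑ j ∈ Finset.range n, noise.real (E j) ≤ J 0 := by
    intro n
    induction n with
    | zero => simp
    | succ n ih =>
      rw [Finset.sum_range_succ, mul_add]
      linarith [hstep n]
  have hsum : Summable fun n => noise.real (E n) := by
    apply summable_of_sum_range_le (c := J 0 / c)
    · intro n; exact measureReal_nonneg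
    · intro n
      rw [le_div_iff₀ hc0]
      linarith [hsumle n, hJ0 n]
  have hne : ∑' t, noise (E t) ≠ ⊤ := by
    have : ∀ t, noise (E t) = ENNReal.ofReal (noise.real (E t)) := fun t => by
      rw [measureReal_def, ENNReal.ofReal_toReal (measure_ne_top _ _)]
    simp_rw [this]
    exact hsum.tsum_ofReal_ne_top
  exact ae_eventually_notMem hne

theorem main : StmW := by
  intro a ha T₀ h9
  filter_upwards [ae_all_iff.2 (key a ha T₀ h9), noise_nonneg] with ω hω hω2 hpos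
  rw [tendsto_atTop]
  intro b
  have h2 : ∀ᶠ t in atTop, 2*b < idx (walk a ω t) := by
    obtain ⟨n0, hn0⟩ := eventually_atTop.1 (hω (2*b))
    refine eventually_atTop.2 ⟨T₀ + n0, fun t ht => ?_⟩
    obtain ⟨n, rfl⟩ : ∃ n, t = T₀ + n := ⟨t - T₀, by omega⟩
    have h3 := hn0 n (by omega)
    by_contra hcon
    exact h3 ⟨⟨Set.mem_univ _, fun r _ => hpos r⟩, not_lt.1 hcon⟩
  filter_upwards [h2] with t ht
  obtain ⟨h1, h2, h3⟩ := walk_mem a ω hω2 t
  unfold idx at ht
  rcases h3 with h3 | h3 <;> omega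

end

end Pool.Agent.Y254.ST
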